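import Pool.Agent.TH625.GM.Props

set_option autoImplicit false

open Complex MeasureTheory
open UpperHalfPlane hiding I
open scoped Real MatrixGroups ModularForm

open Pool.Agent.TH625.GM

namespace Pool.Agent.TH432.J696

theorem e1_mul_e2 (b : ℤ × ℤ) : e1 b * e2 b = nm b := by
  unfold e1 e2 nm
  push_cast
  have h1 : Real.goldenRatio * Real.goldenConj = -1 := Real.goldenRatio_mul_goldenConj
  have h2 : Real.goldenRatio + Real.goldenConj = 1 := Real.goldenRatio_add_goldenConj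
  linear_combination ((b.2:ℝ)^2) * h1 + (b.1:ℝ) * b.2 * h2

theorem e_sq_add (b : ℤ × ℤ) :
    e1 b ^ 2 + e2 b ^ 2 = 2 * (b.1 : ℝ) ^ 2 + 2 * b.1 * b.2 + 3 * (b.2 : ℝ) ^ 2 := by
  unfold e1 e2
  have h1 : Real.goldenRatio * Real.goldenConj = -1 := Real.goldenRatio_mul_goldenConj
  have h2 : Real.goldenRatio + Real.goldenConj = 1 := Real.goldenRatio_add_goldenConj
  linear_combination (-2 * (b.2:ℝ)^2) * h1 + (2 * (b.1:ℝ) * b.2 +
    (b.2 : ℝ) ^ 2 * (Real.goldenRatio + Real.goldenConj + 1)) * h2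

theorem nm_ne_zero {b : ℤ × ℤ} (hb : b ≠ 0) : nm b ≠ 0 := by
  intro h
  have h1 := e1_mul_e2 b
  rw [h, Int.cast_zero] at h1
  by_cases h2 : b.2 = 0
  · have h3 : b.1 ≠ 0 := by
      intro h3
      exact hb (Prod.ext h3 h2)
    have h4 : nm b = b.1 ^ 2 := by unfold nm; rw [h2]; ring
    rw [h4] at h
    exact h3 (pow_eq_zero_iff (by norm_num) |>.1 h)
  · rcases mul_eq_zero.1 h1 with h3 | h3
    · have : Irrational (e1 b) := by
        unfold e1
        exact (Real.goldenRatio_irrational.intCast_mul h2).intCast_add b.1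
      exact this.ne_zero h3
    · have : Irrational (e2 b) := by
        unfold e2
        exact (Real.goldenConj_irrational.intCast_mul h2).intCast_add b.1
      exact this.ne_zero h3

theorem Lg_pos : 0 < Lg := Real.log_pos Real.one_lt_goldenRatio

theorem two_le_maj {b : ℤ × ℤ} (hb : b ≠ 0) (s : ℝ) : 2 ≤ maj s b := by
  have h1 : Real.exp (2 * s) = Real.exp s ^ 2 := by rw [← Real.exp_nat_mul]; norm_num
  have h2 : Real.exp (-(2 * s)) = Real.exp (-s) ^ 2 := by
    rw [← Real.exp_nat_mul]; congr 1; push_cast; ring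
  have h3 : Real.exp s * Real.exp (-s) = 1 := by rw [← Real.exp_add]; simp
  have h4 : (1 : ℝ) ≤ (nm b : ℝ) ^ 2 := by
    have h5 := nm_ne_zero hb
    have h6 : (1 : ℤ) ≤ nm b ^ 2 := by
      have := sq_pos_of_ne_zero h5
      omega
    exact_mod_cast h6
  have h5 := e1_mul_e2 b
  unfold maj
  rw [h1, h2]
  obtain ⟨u, hu⟩ : ∃ u, u = e1 b * Real.exp s := ⟨_, rfl⟩
  obtain ⟨v, hv⟩ : ∃ v, v = e2 b * Real.exp (-s) := ⟨_, rfl⟩
  have h6 : u * v = nm b := by
    rw [hu, hv, ← h5]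
    linear_combination (e1 b * e2 b) * h3
  have h7 : e1 b ^ 2 * Real.exp s ^ 2 + e2 b ^ 2 * Real.exp (-s) ^ 2 = u ^ 2 + v ^ 2 := by
    rw [hu, hv]; ring
  rw [h7]
  rw [← h6] at h4
  nlinarith [sq_nonneg (u - v), sq_nonneg (u + v), sq_nonneg (u ^ 2 + v ^ 2 - 2),
    sq_nonneg (u ^ 2 - v ^ 2)]

/-- the constant in the lower bound -/
noncomputable def kap : ℝ := Real.exp (-(4 * Lg))

theorem kap_pos : 0 < kap := Real.exp_pos _

noncomputable def q2 (b : ℤ × ℤ) : ℝ := (b.1 : ℝ) ^ 2 + (b.2 : ℝ) ^ 2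

theorem q2_nonneg (b : ℤ × ℤ) : 0 ≤ q2 b := by unfold q2; positivity

theorem maj_ge {s : ℝ} (hs0 : 0 ≤ s) (hs1 : s ≤ 2 * Lg) (b : ℤ × ℤ) : kap * q2 b ≤ maj s b := by
  have h1 : kap ≤ Real.exp (2 * s) := Real.exp_le_exp.2 (by linarith [Lg_pos])
  have h2 : kap ≤ Real.exp (-(2 * s)) := Real.exp_le_exp.2 (by linarith)
  have h3 : q2 b ≤ e1 b ^ 2 + e2 b ^ 2 := by
    rw [e_sq_add]; unfold q2
    nlinarith [sq_nonneg ((b.1 : ℝ) + b.2), sq_nonneg (b.2 : ℝ)]
  unfold maj
  have h4 := mul_le_mul_of_nonneg_left h1 (sq_nonneg (e1 b))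
  have h5 := mul_le_mul_of_nonneg_left h2 (sq_nonneg (e2 b))
  have h6 := mul_le_mul_of_nonneg_left h3 kap_pos.le
  linarith

theorem maj_zero_le (b : ℤ × ℤ) : maj 0 b ≤ 4 * q2 b := by
  unfold maj
  simp only [mul_zero, neg_zero, Real.exp_zero, mul_one]
  rw [e_sq_add]; unfold q2
  nlinarith [sq_nonneg ((b.1 : ℝ) - b.2)]

/-- the gaussian majorant is summable -/
theorem summable_q2 (hs : ThSummable) {y : ℝ} (hy : 0 < y) :
    Summable (fun b : ℤ × ℤ => Real.exp (-(y * q2 b))) := by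
  have h := hs (fun _ => 1) 0 1 (by intro b; simp) 0 0 (y / (4 * π)) (by positivity)
  have h' := h.norm
  refine Summable.of_nonneg_of_le (fun _ => (Real.exp_pos _).le) (fun b => ?_) h'
  rw [one_mul, Complex.norm_exp]
  apply Real.exp_le_exp.2
  have h1 : (((-(π * (y / (4 * π)) * maj 0 b) : ℝ) : ℂ) +
      ((2 * π * 0 * nm b : ℝ) : ℂ) * I).re = -(π * (y / (4 * π)) * maj 0 b) := by
    rw [Complex.add_re, Complex.ofReal_re, Complex.re_ofReal_mul, Complex.I_re, mul_zero, add_zero]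
  rw [h1]
  have h2 : π * (y / (4 * π)) * maj 0 b = y / 4 * maj 0 b := by
    field_simp
  rw [h2]
  have h3 := mul_le_mul_of_nonneg_left (maj_zero_le b) (show 0 ≤ y / 4 by positivity)
  linarith

/-- the indicator function of a coset -/
noncomputable def ind (k : ZMod 5) (b : ℤ × ℤ) : ℂ := if rs b = k then 1 else 0

theorem norm_ind_le (k : ZMod 5) (b : ℤ × ℤ) : ‖ind k b‖ ≤ 1 := by
  unfold ind; split_ifs <;> simp

/-- the character in `s` -/
noncomputable def ch (s : ℝ) : ℂ := cexp ((-(π * s / Lg) : ℝ) * I)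

theorem norm_ch (s : ℝ) : ‖ch s‖ = 1 := Complex.norm_exp_ofReal_mul_I _

theorem continuous_ch : Continuous ch := by unfold ch; fun_prop

theorem integral_ch : ∫ s in (0 : ℝ)..(2 * Lg), ch s = 0 := by
  have hL := Lg_pos
  have hL' : (Lg : ℂ) ≠ 0 := by exact_mod_cast hL.ne'
  have hc : (-(π / Lg) * I : ℂ) ≠ 0 := by
    apply mul_ne_zero _ I_ne_zero
    rw [neg_ne_zero]
    exact div_ne_zero (by exact_mod_cast Real.pi_ne_zero) hL'
  have h1 : ch = fun s : ℝ => cexp ((-(π / Lg) * I : ℂ) * s) := by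
    funext s
    unfold ch
    congr 1
    push_cast
    ring
  rw [h1, integral_exp_mul_complex hc]
  have h2 : (-(π / Lg) * I : ℂ) * ((2 * Lg : ℝ) : ℂ) = -(2 * π * I) := by
    push_cast
    field_simp
  rw [h2, Complex.exp_neg, Complex.exp_two_pi_mul_I]
  simp

/-- the terms -/
noncomputable def cf (k : ZMod 5) (y : ℝ) (b : ℤ × ℤ) : ℂ :=
  ∫ s in (0 : ℝ)..(2 * Lg), ind k b * cexp ((-(π * y * maj s b) : ℝ)) * ch s

noncomputable def g (k : ZMod 5) (x y : ℝ) : ℂ :=
  ∫ s in (0 : ℝ)..(2 * Lg), Th (ind k) s x y * ch s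

theorem continuous_maj (b : ℤ × ℤ) : Continuous fun s => maj s b := by
  unfold maj; fun_prop

theorem cf_zero (k : ZMod 5) (y : ℝ) : cf k y 0 = 0 := by
  unfold cf
  have h1 : ∀ s : ℝ, maj s 0 = 0 := by intro s; unfold maj e1 e2; simp
  simp only [h1, mul_zero, neg_zero, Complex.ofReal_zero, Complex.exp_zero, mul_one]
  rw [intervalIntegral.integral_const_mul, integral_ch, mul_zero]

theorem norm_cf_le (k : ZMod 5) {y M : ℝ} (hy : 0 ≤ y) (b : ℤ × ℤ)
    (hM : ∀ s : ℝ, 0 ≤ s → s ≤ 2 * Lg → M ≤ maj s b) :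
    ‖cf k y b‖ ≤ Real.exp (-(π * y * M)) * (2 * Lg) := by
  have hL := Lg_pos
  unfold cf
  have h := intervalIntegral.norm_integral_le_of_norm_le_const (a := (0 : ℝ)) (b := 2 * Lg)
    (f := fun s => ind k b * cexp ((-(π * y * maj s b) : ℝ)) * ch s)
    (C := Real.exp (-(π * y * M))) (by
      intro s hs
      rw [Set.uIoc_of_le (by positivity)] at hs
      rw [norm_mul, norm_mul, norm_ch, mul_one, Complex.norm_exp, Complex.ofReal_re]
      have h1 := norm_ind_le k b
      have h2 : Real.exp (-(π * y * maj s b)) ≤ Real.exp (-(π * y * M)) := by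
        apply Real.exp_le_exp.2
        have := mul_le_mul_of_nonneg_left (hM s hs.1.le hs.2) (show 0 ≤ π * y by positivity)
        linarith
      calc ‖ind k b‖ * Real.exp (-(π * y * maj s b)) ≤ 1 * Real.exp (-(π * y * M)) := by
            gcongr
        _ = _ := one_mul _)
  rwa [sub_zero, abs_of_pos (by positivity)] at h

theorem norm_cf_le' (k : ZMod 5) {y : ℝ} (hy : 0 ≤ y) (b : ℤ × ℤ) :
    ‖cf k y b‖ ≤ Real.exp (-(π * y * kap * q2 b)) * (2 * Lg) := by
  have h := norm_cf_le k hy b (M := kap * q2 b) (fun s h1 h2 => maj_ge h1 h2 b)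
  rw [show π * y * kap * q2 b = π * y * (kap * q2 b) by ring]
  exact h

/-- exponentially small bound -/
theorem norm_cf_le'' (k : ZMod 5) {y : ℝ} (hy : 0 ≤ y) (b : ℤ × ℤ) :
    ‖cf k y b‖ ≤ Real.exp (-(π * y)) * (Real.exp (-(π * (y / 2) * kap * q2 b)) * (2 * Lg)) := by
  have hL := Lg_pos
  by_cases hb : b = 0
  · rw [hb, cf_zero, norm_zero]; positivity
  · have h := norm_cf_le k hy b (M := 1 + kap * q2 b / 2) (fun s h1 h2 => by
      have h3 := maj_ge h1 h2 b
      have h4 := two_le_maj hb s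
      linarith)
    rw [← mul_assoc, ← Real.exp_add]
    convert h using 3
    ring

theorem g_hasSum (hs : ThSummable) (k : ZMod 5) (x : ℝ) {y : ℝ} (hy : 0 < y) :
    HasSum (fun b => cf k y b * cexp ((2 * π * x * nm b : ℝ) * I)) (g k x y) := by
  have hL := Lg_pos
  have h1 : ∀ b, cf k y b * cexp ((2 * π * x * nm b : ℝ) * I) =
      ∫ s in (0 : ℝ)..(2 * Lg), ind k b * cexp (((-(π * y * maj s b) : ℝ) : ℂ) +
        ((2 * π * x * nm b : ℝ) : ℂ) * I) * ch s := by
    intro b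
    unfold cf
    rw [← intervalIntegral.integral_mul_const]
    apply intervalIntegral.integral_congr
    intro s _
    simp only
    rw [Complex.exp_add]
    ring
  simp_rw [h1]
  unfold g
  have hsum := summable_q2 hs (show 0 < π * y * kap from by have := kap_pos; positivity)
  apply intervalIntegral.hasSum_integral_of_dominated_convergence
    (fun b (_ : ℝ) => Real.exp (-(π * y * kap * q2 b)))
  · intro b
    apply Continuous.aestronglyMeasurable
    have := continuous_maj b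
    have := continuous_ch
    fun_prop
  · intro b
    refine Filter.Eventually.of_forall fun s hs' => ?_
    rw [Set.uIoc_of_le (by positivity)] at hs'
    rw [norm_mul, norm_mul, norm_ch, mul_one, Complex.norm_exp]
    have h2 : (((-(π * y * maj s b) : ℝ) : ℂ) + ((2 * π * x * nm b : ℝ) : ℂ) * I).re =
        -(π * y * maj s b) := by
      rw [Complex.add_re, Complex.ofReal_re, Complex.re_ofReal_mul, Complex.I_re, mul_zero, add_zero]
    rw [h2]
    have h3 := norm_ind_le k b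
    have h4 : Real.exp (-(π * y * maj s b)) ≤ Real.exp (-(π * y * kap * q2 b)) := by
      apply Real.exp_le_exp.2
      have := mul_le_mul_of_nonneg_left (maj_ge hs'.1.le hs'.2 b)
        (show 0 ≤ π * y by positivity)
      linarith
    calc ‖ind k b‖ * Real.exp (-(π * y * maj s b)) ≤ 1 * Real.exp (-(π * y * kap * q2 b)) := by
          gcongr
      _ = _ := one_mul _
  · exact Filter.Eventually.of_forall fun _ _ => hsum
  · exact intervalIntegrable_const
  · refine Filter.Eventually.of_forall fun s _ => ?_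
    have h2 := hs (ind k) 0 1 (by intro b; simpa using norm_ind_le k b) s x y hy
    exact h2.hasSum.mul_right (ch s)

theorem summable_cf_norm (hs : ThSummable) (k : ZMod 5) {y : ℝ} (hy : 0 < y) :
    Summable (fun b => ‖cf k y b‖) := by
  have hsum := summable_q2 hs (show 0 < π * y * kap from by have := kap_pos; positivity)
  exact Summable.of_nonneg_of_le (fun _ => norm_nonneg _) (norm_cf_le' k hy.le)
    (hsum.mul_right (2 * Lg))

/-- exponential decay of `g` -/
theorem g_bound (hs : ThSummable) (k : ZMod 5) {y₀ : ℝ} (hy₀ : 0 < y₀) :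
    ∃ C : ℝ, 0 ≤ C ∧ ∀ x y : ℝ, y₀ ≤ y → ‖g k x y‖ ≤ C * Real.exp (-(π * y)) := by
  have hL := Lg_pos
  have hk := kap_pos
  have hsum := summable_q2 hs (show 0 < π * (y₀ / 2) * kap from by positivity)
  refine ⟨∑' b, Real.exp (-(π * (y₀ / 2) * kap * q2 b)) * (2 * Lg),
    tsum_nonneg (fun _ => by positivity), fun x y hy => ?_⟩
  have hy' : 0 < y := lt_of_lt_of_le hy₀ hy
  have h1 := g_hasSum hs k x hy'
  rw [mul_comm, ← tsum_mul_left]
  rw [← h1.tsum_eq]
  apply tsum_of_norm_bounded ((hsum.mul_right (2 * Lg)).mul_left (Real.exp (-(π * y)))).hasSum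
  intro b
  rw [norm_mul, Complex.norm_exp_ofReal_mul_I, mul_one]
  refine (norm_cf_le'' k hy'.le b).trans ?_
  apply mul_le_mul_of_nonneg_left _ (Real.exp_pos _).le
  apply mul_le_mul_of_nonneg_right _ (by positivity)
  apply Real.exp_le_exp.2
  have h2 := q2_nonneg b
  have h3 : π * (y₀ / 2) * kap * q2 b ≤ π * (y / 2) * kap * q2 b := by gcongr
  linarith

theorem g_continuous (hs : ThSummable) (k : ZMod 5) {y : ℝ} (hy : 0 < y) :
    Continuous fun x => g k x y := by
  have h1 : (fun x => g k x y) = fun x => ∑' b, cf k y b * cexp ((2 * π * x * nm b : ℝ) * I) := by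
    funext x
    exact (g_hasSum hs k x hy).tsum_eq.symm
  rw [h1]
  refine continuous_tsum (fun b => ?_) (summable_cf_norm hs k hy) (fun b x => ?_)
  · fun_prop
  · rw [norm_mul, Complex.norm_exp_ofReal_mul_I, mul_one]

/-- the mean of `g` over a period vanishes -/
theorem g_mean (hs : ThSummable) (k : ZMod 5) {y : ℝ} (hy : 0 < y) (α β : ℝ) (N : ℤ) (hN : N ≠ 0)
    (hα : 125 * α = N) : ∫ x in (0 : ℝ)..125, g k (α * x + β) y = 0 := by
  have h1 : HasSum (fun b : ℤ × ℤ => ∫ x in (0 : ℝ)..125,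
      cf k y b * cexp ((2 * π * (α * x + β) * nm b : ℝ) * I))
      (∫ x in (0 : ℝ)..125, g k (α * x + β) y) := by
    apply intervalIntegral.hasSum_integral_of_dominated_convergence
      (fun b (_ : ℝ) => ‖cf k y b‖)
    · intro b
      apply Continuous.aestronglyMeasurable
      fun_prop
    · intro b
      refine Filter.Eventually.of_forall fun s _ => ?_
      rw [norm_mul, Complex.norm_exp_ofReal_mul_I, mul_one]
    · exact Filter.Eventually.of_forall fun _ _ => summable_cf_norm hs k hy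
    · exact intervalIntegrable_const
    · exact Filter.Eventually.of_forall fun s _ => g_hasSum hs k _ hy
  have h2 : ∀ b : ℤ × ℤ, ∫ x in (0 : ℝ)..125,
      cf k y b * cexp ((2 * π * (α * x + β) * nm b : ℝ) * I) = 0 := by
    intro b
    by_cases hb : b = 0
    · rw [hb, cf_zero]; simp
    · have h3 := nm_ne_zero hb
      rw [intervalIntegral.integral_const_mul]
      have hα0 : α ≠ 0 := by
        rintro rfl
        rw [mul_zero] at hα
        exact hN (by exact_mod_cast hα.symm)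
      have hc : (2 * π * α * nm b * I : ℂ) ≠ 0 := by
        have h4 : (α : ℂ) ≠ 0 := by exact_mod_cast hα0
        have h5 : ((nm b : ℤ) : ℂ) ≠ 0 := by exact_mod_cast h3
        have h6 : (π : ℂ) ≠ 0 := by exact_mod_cast Real.pi_ne_zero
        simp [h4, h5, h6, I_ne_zero]
      have h4 : ∀ x : ℝ, cexp ((2 * π * (α * x + β) * nm b : ℝ) * I) =
          cexp ((2 * π * β * nm b : ℝ) * I) * cexp ((2 * π * α * nm b * I : ℂ) * x) := by
        intro x
        rw [← Complex.exp_add]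
        congr 1
        push_cast
        ring
      simp_rw [h4]
      rw [intervalIntegral.integral_const_mul, integral_exp_mul_complex hc]
      have h5 : (2 * π * α * nm b * I : ℂ) * ((125 : ℝ) : ℂ) =
          ((N * nm b : ℤ) : ℂ) * (2 * π * I) := by
        have h6 : (125 : ℂ) * α = N := by exact_mod_cast hα
        push_cast
        linear_combination (2 * π * (nm b : ℂ) * I) * h6
      rw [h5, Complex.exp_int_mul_two_pi_mul_I]
      simp
  simp_rw [h2] at h1
  exact (h1.unique hasSum_zero)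

/-- the integrated theta series of a coset -/
noncomputable def G (k : ZMod 5) (z : ℍ) : ℂ :=
  ∫ s in (0 : ℝ)..(2 * Lg), thk k s z * ch s

theorem G_eq (k : ZMod 5) (z : ℍ) :
    G k z = (Real.sqrt z.im : ℂ) * g k (-(z.re / 5)) (z.im / 5) := by
  unfold G g thk
  rw [← intervalIntegral.integral_const_mul]
  apply intervalIntegral.integral_congr
  intro s _
  simp only
  rw [mul_assoc]
  rfl

theorem thk_continuousOn (hs : ThSummable) (k : ZMod 5) (z : ℍ) :
    ContinuousOn (fun s => thk k s z * ch s) (Set.uIcc 0 (2 * Lg)) := by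
  have hL := Lg_pos
  have hk := kap_pos
  have hz : 0 < z.im / 5 := by have := z.im_pos; positivity
  have hsum := summable_q2 hs (show 0 < π * (z.im / 5) * kap from by positivity)
  rw [Set.uIcc_of_le (by positivity)]
  apply ContinuousOn.mul _ continuous_ch.continuousOn
  unfold thk Th
  apply ContinuousOn.mul continuousOn_const
  refine continuousOn_tsum (fun b => ?_) hsum (fun b s hs' => ?_)
  · apply Continuous.continuousOn
    have := continuous_maj b
    fun_prop
  · rw [norm_mul, Complex.norm_exp]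
    have h2 : (((-(π * (z.im / 5) * maj s b) : ℝ) : ℂ) +
        ((2 * π * (-(z.re / 5)) * nm b : ℝ) : ℂ) * I).re = -(π * (z.im / 5) * maj s b) := by
      rw [Complex.add_re, Complex.ofReal_re, Complex.re_ofReal_mul, Complex.I_re, mul_zero, add_zero]
    rw [h2]
    have h3 := norm_ind_le k b
    unfold ind at h3
    have h4 : Real.exp (-(π * (z.im / 5) * maj s b)) ≤
        Real.exp (-(π * (z.im / 5) * kap * q2 b)) := by
      apply Real.exp_le_exp.2
      have := mul_le_mul_of_nonneg_left (maj_ge hs'.1 hs'.2 b)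
        (show 0 ≤ π * (z.im / 5) by positivity)
      linarith
    calc _ ≤ 1 * Real.exp (-(π * (z.im / 5) * kap * q2 b)) := by gcongr
      _ = _ := one_mul _

theorem coe_sl (g : SL(2, ℤ)) (z : ℍ) : ((g • z : ℍ) : ℂ) =
    (((g 0 0 : ℤ) : ℂ) * z + ((g 0 1 : ℤ) : ℂ)) / (((g 1 0 : ℤ) : ℂ) * z + ((g 1 1 : ℤ) : ℂ)) := by
  rw [coe_specialLinearGroup_apply]
  simp

theorem denom_ne (c d : ℤ) (h : c ≠ 0 ∨ d ≠ 0) (z : ℍ) : ((c : ℂ) * z + d) ≠ 0 := by
  intro h0
  have him := congrArg Complex.im h0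
  have hre := congrArg Complex.re h0
  have hz := z.im_pos
  simp only [Complex.add_im, Complex.mul_im, Complex.intCast_re, Complex.intCast_im, zero_mul,
    add_zero, Complex.zero_im, coe_im, coe_re] at him
  simp only [Complex.add_re, Complex.mul_re, Complex.intCast_re, Complex.intCast_im, zero_mul,
    sub_zero, Complex.zero_re, coe_re, coe_im] at hre
  have hc : (c : ℝ) = 0 := by
    rcases mul_eq_zero.1 him with h1 | h1
    · exact h1
    · exact absurd h1 hz.ne'
  rw [hc, zero_mul, zero_add] at hre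
  rcases h with h | h
  · exact h (by exact_mod_cast hc)
  · exact h (by exact_mod_cast hre)

/-- the point `(p z + r) / t` -/
noncomputable def W (p t r : ℤ) (hp : 0 < p) (ht : 0 < t) (z : ℍ) : ℍ :=
  ⟨⟨(p * z.re + r) / t, p * z.im / t⟩, by
    have h1 : (0 : ℝ) < p := by exact_mod_cast hp
    have h2 : (0 : ℝ) < t := by exact_mod_cast ht
    have h3 := z.im_pos
    show (0 : ℝ) < p * z.im / t
    positivity⟩

theorem W_re (p t r : ℤ) (hp : 0 < p) (ht : 0 < t) (z : ℍ) :
    (W p t r hp ht z).re = (p * z.re + r) / t := rfl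

theorem W_im (p t r : ℤ) (hp : 0 < p) (ht : 0 < t) (z : ℍ) :
    (W p t r hp ht z).im = p * z.im / t := rfl

theorem coe_W (p t r : ℤ) (hp : 0 < p) (ht : 0 < t) (z : ℍ) :
    ((W p t r hp ht z : ℍ) : ℂ) = ((p : ℂ) * z + r) / t := by
  have h1 : ((t : ℤ) : ℂ) = (((t : ℤ) : ℝ) : ℂ) := by push_cast; rfl
  apply Complex.ext
  · rw [h1, Complex.div_ofReal_re]
    rw [coe_re, W_re]
    simp
  · rw [h1, Complex.div_ofReal_im]
    rw [coe_im, W_im]
    simp

/-- Hermite normal form -/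
theorem decomp (σ : SL(2, ℤ)) (j : ℤ) : ∃ (σ' : SL(2, ℤ)) (p t r : ℤ) (hp : 0 < p) (ht : 0 < t),
    p * t = 25 ∧ ∀ z : ℍ, (((j : ℝ) / 5) +ᵥ (σ • z)) = σ' • (W p t r hp ht z) := by
  obtain ⟨a, ha⟩ : ∃ a, a = σ 0 0 := ⟨_, rfl⟩
  obtain ⟨b, hb⟩ : ∃ b, b = σ 0 1 := ⟨_, rfl⟩
  obtain ⟨c, hc⟩ : ∃ c, c = σ 1 0 := ⟨_, rfl⟩
  obtain ⟨d, hd⟩ : ∃ d, d = σ 1 1 := ⟨_, rfl⟩
  have hdet : a * d - b * c = 1 := by
    have := σ.det_coe
    rw [Matrix.det_fin_two] at this
    rw [ha, hb, hc, hd]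
    exact this
  obtain ⟨x, hx⟩ : ∃ x, x = 5 * a + j * c := ⟨_, rfl⟩
  obtain ⟨u, hu⟩ : ∃ u, u = 5 * c := ⟨_, rfl⟩
  have hxu : x ≠ 0 ∨ u ≠ 0 := by
    by_contra hcon
    push Not at hcon
    obtain ⟨h1, h2⟩ := hcon
    have h3 : c = 0 := by omega
    rw [hx, h3] at h1
    have h4 : a = 0 := by omega
    rw [h3, h4] at hdet
    simp at hdet
  have hg : 0 < Int.gcd x u := Int.gcd_pos_iff.2 hxu
  obtain ⟨α, hα⟩ : (Int.gcd x u : ℤ) ∣ x := Int.gcd_dvd_left ..
  obtain ⟨γ, hγ⟩ : (Int.gcd x u : ℤ) ∣ u := Int.gcd_dvd_right ..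
  have hbez := Int.gcd_eq_gcd_ab x u
  obtain ⟨p, hp⟩ : ∃ p : ℤ, p = (Int.gcd x u : ℤ) := ⟨_, rfl⟩
  rw [← hp] at hα hγ hbez
  have hp0 : 0 < p := by rw [hp]; exact_mod_cast hg
  obtain ⟨δ, hδ⟩ : ∃ δ : ℤ, δ = Int.gcdA x u := ⟨_, rfl⟩
  obtain ⟨β, hβ⟩ : ∃ β : ℤ, β = -Int.gcdB x u := ⟨_, rfl⟩
  have hbez2 : α * δ - β * γ = 1 := by
    have h1 : p * (α * δ - β * γ) = p * 1 := by
      rw [hδ, hβ]
      linear_combination -hbez - Int.gcdA x u * hα - Int.gcdB x u * hγ
    exact mul_left_cancel₀ hp0.ne' h1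
  obtain ⟨r, hr⟩ : ∃ r : ℤ, r = δ * (5 * b + j * d) - β * (5 * d) := ⟨_, rfl⟩
  obtain ⟨t, ht⟩ : ∃ t : ℤ, t = -γ * (5 * b + j * d) + α * (5 * d) := ⟨_, rfl⟩
  have hpt : p * t = 25 := by
    rw [ht]
    have h1 : p * (-γ * (5 * b + j * d) + α * (5 * d)) =
      -(p * γ) * (5 * b + j * d) + (p * α) * (5 * d) := by ring
    rw [h1, ← hα, ← hγ, hx, hu]
    linear_combination 25 * hdet
  have ht0 : 0 < t := by
    by_contra hcon
    push Not at hcon
    have := mul_nonpos_of_nonneg_of_nonpos hp0.le hcon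
    omega
  have e1 : α * r + β * t = 5 * b + j * d := by
    rw [hr, ht]
    linear_combination (5 * b + j * d) * hbez2
  have e2 : γ * r + δ * t = 5 * d := by
    rw [hr, ht]
    linear_combination (5 * d) * hbez2
  let σ' : SL(2, ℤ) := ⟨!![α, β; γ, δ], by rw [Matrix.det_fin_two_of]; exact hbez2⟩
  have s00 : σ' 0 0 = α := rfl
  have s01 : σ' 0 1 = β := rfl
  have s10 : σ' 1 0 = γ := rfl
  have s11 : σ' 1 1 = δ := rfl
  refine ⟨σ', p, t, r, hp0, ht0, hpt, fun z => ?_⟩
  apply UpperHalfPlane.ext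
  rw [coe_vadd, coe_sl, coe_sl, s00, s01, s10, s11, ← ha, ← hb, ← hc, ← hd, coe_W]
  have hcd : c ≠ 0 ∨ d ≠ 0 := by
    by_contra hcon
    push Not at hcon
    rw [hcon.1, hcon.2] at hdet
    simp at hdet
  have n1 := denom_ne c d hcd z
  have n2 : ((t : ℤ) : ℂ) ≠ 0 := by exact_mod_cast ht0.ne'
  have n3 : (γ : ℂ) * (((p : ℂ) * z + r) / t) + δ = 5 * ((c : ℂ) * z + d) / t := by
    rw [eq_div_iff n2]
    have e2' : (γ : ℂ) * r + δ * t = 5 * d := by exact_mod_cast e2
    have hγ' : (u : ℂ) = p * γ := by exact_mod_cast hγ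
    have hu' : (u : ℂ) = 5 * c := by exact_mod_cast hu
    have : ((γ : ℂ) * (((p : ℂ) * z + r) / t) + δ) * t = γ * (p * z + r) + δ * t := by
      field_simp
    rw [this]
    linear_combination e2' - (z : ℂ) * hγ' + (z : ℂ) * hu'
  have n4 : (α : ℂ) * (((p : ℂ) * z + r) / t) + β =
      ((5 * a + j * c : ℂ) * z + (5 * b + j * d)) / t := by
    rw [eq_div_iff n2]
    have e1' : (α : ℂ) * r + β * t = 5 * b + j * d := by exact_mod_cast e1
    have hα' : (x : ℂ) = p * α := by exact_mod_cast hα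
    have hx' : (x : ℂ) = 5 * a + j * c := by exact_mod_cast hx
    have : ((α : ℂ) * (((p : ℂ) * z + r) / t) + β) * t = α * (p * z + r) + β * t := by
      field_simp
    rw [this]
    linear_combination e1' - (z : ℂ) * hα' + (z : ℂ) * hx'
  rw [n3, n4, div_div_div_cancel_right₀ n2]
  have n5 : (((j : ℝ) / 5 : ℝ) : ℂ) = (j : ℂ) / 5 := by push_cast; rfl
  rw [n5, div_add_div _ _ (by norm_num) n1]
  congr 1
  ring

/-- expansion of `E 1` at a cusp -/
theorem expand (h1 : LawOne) (h2 : LawSL2) (σ : SL(2, ℤ)) (j : ℤ) :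
    ∃ (p t r : ℤ) (hp : 0 < p) (ht : 0 < t) (c : ZMod 5 → ℂ), p * t = 25 ∧ ∀ (s : ℝ) (z : ℍ),
      E (fun _ => 1) s (((j : ℝ) / 5) +ᵥ (σ • z)) = ∑ k : ZMod 5, c k * thk k s (W p t r hp ht z) := by
  obtain ⟨σ', p, t, r, hp, ht, hpt, h⟩ := decomp σ j
  by_cases h0 : ((σ' 1 0 : ℤ) : ZMod 5) = 0
  · refine ⟨p, t, r, hp, ht, fun k => if k = 0 then (chi5 ((σ' 1 1 : ℤ) : ZMod 5) : ℂ) else 0, hpt,
      fun s z => ?_⟩
    rw [h z, h1, h2.dvd s σ' _ h0]
    simp
  · refine ⟨p, t, r, hp, ht, fun k => (chi5 ((σ' 1 0 : ℤ) : ZMod 5) : ℂ) * (1 / Real.sqrt 5 : ℝ) *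
      ZMod.stdAddChar (-((σ' 1 1 : ℤ) : ZMod 5) * ((σ' 1 0 : ℤ) : ZMod 5)⁻¹ * k ^ 2), hpt,
      fun s z => ?_⟩
    rw [h z, h1, h2.ndvd s σ' _ h0, Finset.mul_sum]
    apply Finset.sum_congr rfl
    intro k _
    ring

theorem fM_eq (z : ℍ) : fM z = (1 / 2) * ∫ s in (0 : ℝ)..(2 * Lg),
    E (fun b => (h5 b : ℂ)) s z * ch s := rfl

/-- expansion of `fM` at a cusp -/
theorem fM_expand (hs : ThSummable) (h1 : LawOne) (h2 : LawSL2) (h3 : LawTw5) (σ : SL(2, ℤ)) :
    ∃ (p t r : ZMod 5 → ℤ) (d : ZMod 5 → ZMod 5 → ℂ),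
      (∀ j, 0 < p j ∧ 0 < t j ∧ p j * t j = 25) ∧ ∀ z : ℍ,
      fM (σ • z) = ∑ j : ZMod 5, ∑ k : ZMod 5, d j k * ((Real.sqrt (p j * z.im / t j) : ℂ) *
        g k (-(((p j * z.re + r j) / t j) / 5)) ((p j * z.im / t j) / 5)) := by
  have H := fun j : ZMod 5 => expand h1 h2 σ (j.val : ℤ)
  choose p t r hp ht c hpt hE using H
  obtain ⟨τ, hτ⟩ : ∃ τ : ℂ, τ = ∑ j : ZMod 5, (starRingEnd ℂ) (om j) * ZMod.stdAddChar j := ⟨_, rfl⟩
  have hτ0 : τ ≠ 0 := by rw [hτ]; exact h3.ne
  refine ⟨p, t, r, fun j k => (1 / 2) * (τ⁻¹ * ((starRingEnd ℂ) (om j) * c j k)),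
    fun j => ⟨hp j, ht j, hpt j⟩, fun z => ?_⟩
  have e1 : ∀ s : ℝ, E (fun b => (h5 b : ℂ)) s (σ • z) * ch s = ∑ j : ZMod 5, ∑ k : ZMod 5,
      (τ⁻¹ * ((starRingEnd ℂ) (om j) * c j k)) *
        (thk k s (W (p j) (t j) (r j) (hp j) (ht j) z) * ch s) := by
    intro s
    have e2 := h3.eq s (σ • z)
    rw [← hτ] at e2
    have e3 : E (fun b => (h5 b : ℂ)) s (σ • z) = τ⁻¹ * ∑ j : ZMod 5, (starRingEnd ℂ) (om j) *
        E (fun _ => 1) s (((j.val : ℝ) / 5) +ᵥ (σ • z)) := by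
      rw [e2, inv_mul_cancel_left₀ hτ0]
    rw [e3, Finset.mul_sum, Finset.sum_mul]
    apply Finset.sum_congr rfl
    intro j _
    have e4 := hE j s z
    rw [Int.cast_natCast] at e4
    rw [e4, Finset.mul_sum, Finset.mul_sum, Finset.sum_mul]
    apply Finset.sum_congr rfl
    intro k _
    ring
  rw [fM_eq]
  simp_rw [e1]
  have hcont : ∀ j k : ZMod 5, ContinuousOn (fun s : ℝ =>
      (τ⁻¹ * ((starRingEnd ℂ) (om j) * c j k)) *
        (thk k s (W (p j) (t j) (r j) (hp j) (ht j) z) * ch s)) (Set.uIcc 0 (2 * Lg)) :=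
    fun j k => continuousOn_const.mul (thk_continuousOn hs k _)
  rw [intervalIntegral.integral_finsetSum (fun j _ => (continuousOn_finsetSum _ fun k _ =>
    hcont j k).intervalIntegrable)]
  rw [Finset.mul_sum]
  apply Finset.sum_congr rfl
  intro j _
  rw [intervalIntegral.integral_finsetSum (fun k _ => (hcont j k).intervalIntegrable)]
  rw [Finset.mul_sum]
  apply Finset.sum_congr rfl
  intro k _
  rw [intervalIntegral.integral_const_mul]
  have e5 : ∫ s in (0 : ℝ)..(2 * Lg), thk k s (W (p j) (t j) (r j) (hp j) (ht j) z) * ch s =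
      G k (W (p j) (t j) (r j) (hp j) (ht j) z) := rfl
  rw [e5, G_eq, W_re, W_im]
  ring

theorem fM_inv (h4 : LawAut) (γ : SL(2, ℤ)) (hγ : γ ∈ CongruenceSubgroup.Gamma0 25) (z : ℍ) :
    fM (γ • z) = fM z := by
  rw [fM_eq, fM_eq]
  simp_rw [h4 _ γ hγ z]

theorem conj_T (σ : SL(2, ℤ)) :
    σ * ModularGroup.T ^ (25 : ℤ) * σ⁻¹ ∈ CongruenceSubgroup.Gamma0 25 := by
  rw [CongruenceSubgroup.Gamma0_mem]
  have h1 : (σ * ModularGroup.T ^ (25 : ℤ) * σ⁻¹) 1 0 = -25 * (σ 1 0) ^ 2 := by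
    rw [Matrix.SpecialLinearGroup.coe_mul, Matrix.SpecialLinearGroup.coe_mul,
      Matrix.SpecialLinearGroup.coe_inv, Matrix.adjugate_fin_two, ModularGroup.coe_T_zpow]
    simp [Matrix.mul_apply, Fin.sum_univ_two]
    ring
  rw [h1]
  push_cast
  have : ((25 : ZMod 25)) = 0 := by decide
  rw [this]
  ring

theorem fM_periodic (h4 : LawAut) (σ : SL(2, ℤ)) (z : ℍ) (x : ℝ) :
    fM (σ • ((x + 25 : ℝ) +ᵥ z)) = fM (σ • ((x : ℝ) +ᵥ z)) := by
  have h1 : ((x + 25 : ℝ) +ᵥ z) = ModularGroup.T ^ (25 : ℤ) • ((x : ℝ) +ᵥ z) := by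
    rw [modular_T_zpow_smul, vadd_vadd]
    congr 1
    push_cast
    ring
  have h2 : σ • (ModularGroup.T ^ (25 : ℤ) • ((x : ℝ) +ᵥ z)) =
      (σ * ModularGroup.T ^ (25 : ℤ) * σ⁻¹) • (σ • ((x : ℝ) +ᵥ z)) := by
    rw [← mul_smul, ← mul_smul]
    congr 1
    group
  rw [h1, h2]
  exact fM_inv h4 _ (conj_T σ) _

theorem sqrt_le (y : ℝ) (hy : 0 ≤ y) : Real.sqrt y ≤ (10 / π + 1) * Real.exp (π / 10 * y) := by
  have hπ := Real.pi_pos
  have h1 : Real.sqrt y ≤ y + 1 := by
    rw [Real.sqrt_le_left (by linarith)]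
    nlinarith
  have h2 : π / 10 * y + 1 ≤ Real.exp (π / 10 * y) := Real.add_one_le_exp _
  have h3 : (1 : ℝ) ≤ Real.exp (π / 10 * y) := by
    have : 0 ≤ π / 10 * y := by positivity
    linarith
  have h4 : y ≤ 10 / π * Real.exp (π / 10 * y) := by
    have h5 : y = 10 / π * (π / 10 * y) := by field_simp
    calc y = 10 / π * (π / 10 * y) := h5
      _ ≤ 10 / π * Real.exp (π / 10 * y) := by
          apply mul_le_mul_of_nonneg_left _ (by positivity)
          linarith
  rw [add_mul, one_mul]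
  linarith

theorem cusps (hs : ThSummable) (h1 : LawOne) (h2 : LawSL2) (h3 : LawTw5) (h4 : LawAut) :
    Cusps where
  bound := by
    intro σ
    obtain ⟨p, t, r, d, hpt, hE⟩ := fM_expand hs h1 h2 h3 σ
    have hG := fun k : ZMod 5 => g_bound hs k (show (0 : ℝ) < 1 / 125 by norm_num)
    choose C hC0 hC using hG
    have hπ := Real.pi_pos
    refine ⟨∑ j : ZMod 5, ∑ k : ZMod 5, ‖d j k‖ * (C k * (10 / π + 1)), π / 250, by positivity,
      fun z hz => ?_⟩
    rw [hE z, Finset.sum_mul]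
    refine (norm_sum_le _ _).trans (Finset.sum_le_sum fun j _ => ?_)
    rw [Finset.sum_mul]
    refine (norm_sum_le _ _).trans (Finset.sum_le_sum fun k _ => ?_)
    obtain ⟨hp, ht, hpt'⟩ := hpt j
    have hp1 : (1 : ℝ) ≤ p j := by exact_mod_cast hp
    have ht1 : (0 : ℝ) < t j := by exact_mod_cast ht
    have ht25 : (t j : ℝ) ≤ 25 := by
      have : t j ≤ 25 := by
        rw [← hpt']
        exact le_mul_of_one_le_left ht.le hp
      exact_mod_cast this
    obtain ⟨y', hy'⟩ : ∃ y' : ℝ, y' = p j * z.im / t j := ⟨_, rfl⟩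
    have hz0 : 0 < z.im := z.im_pos
    have hy1 : z.im / 25 ≤ y' := by
      rw [hy', div_le_div_iff₀ (by norm_num) ht1]
      nlinarith [mul_le_mul_of_nonneg_left ht25 hz0.le, mul_le_mul_of_nonneg_right hp1 hz0.le]
    have hy0 : 0 ≤ y' := by linarith [div_nonneg hz0.le (show (0 : ℝ) ≤ 25 by norm_num)]
    rw [← hy', norm_mul, norm_mul, Complex.norm_real, Real.norm_of_nonneg (Real.sqrt_nonneg _)]
    have h5 := hC k (-(((p j * z.re + r j) / t j) / 5)) (y' / 5) (by linarith)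
    have h6 := sqrt_le y' hy0
    have h7 : Real.exp (π / 10 * y') * Real.exp (-(π * (y' / 5))) ≤
        Real.exp (-(π / 250 * z.im)) := by
      rw [← Real.exp_add]
      apply Real.exp_le_exp.2
      have := mul_le_mul_of_nonneg_left hy1 (show 0 ≤ π / 10 by positivity)
      linarith
    calc ‖d j k‖ * (Real.sqrt y' * ‖g k (-(((p j * z.re + r j) / t j) / 5)) (y' / 5)‖)
        ≤ ‖d j k‖ * (((10 / π + 1) * Real.exp (π / 10 * y')) *
            (C k * Real.exp (-(π * (y' / 5))))) := by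
          gcongr
      _ = ‖d j k‖ * (C k * (10 / π + 1)) *
            (Real.exp (π / 10 * y') * Real.exp (-(π * (y' / 5)))) := by ring
      _ ≤ ‖d j k‖ * (C k * (10 / π + 1)) * Real.exp (-(π / 250 * z.im)) := by
          apply mul_le_mul_of_nonneg_left h7
          have := hC0 k
          positivity
  zero := by
    intro σ z
    obtain ⟨p, t, r, d, hpt, hE⟩ := fM_expand hs h1 h2 h3 σ
    have hz0 : 0 < z.im := z.im_pos
    have hcont : ∀ j k : ZMod 5, Continuous fun x : ℝ => d j k *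
        ((Real.sqrt (p j * z.im / t j) : ℂ) *
        g k (-(((p j * (x + z.re) + r j) / t j) / 5)) ((p j * z.im / t j) / 5)) := by
      intro j k
      obtain ⟨hp, ht, _⟩ := hpt j
      have hp1 : (0 : ℝ) < p j := by exact_mod_cast hp
      have ht1 : (0 : ℝ) < t j := by exact_mod_cast ht
      have h5 := g_continuous hs k (show 0 < (p j * z.im / t j) / 5 by positivity)
      have h6 : Continuous fun x : ℝ => (-(((p j * (x + z.re) + r j) / t j) / 5) : ℝ) := by
        fun_prop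
      exact continuous_const.mul (continuous_const.mul (h5.comp h6))
    have hf : ∀ x : ℝ, fM (σ • ((x : ℝ) +ᵥ z)) = ∑ j : ZMod 5, ∑ k : ZMod 5, d j k *
        ((Real.sqrt (p j * z.im / t j) : ℂ) *
        g k (-(((p j * (x + z.re) + r j) / t j) / 5)) ((p j * z.im / t j) / 5)) := by
      intro x
      rw [hE, vadd_im, vadd_re]
    have hcontf : Continuous fun x : ℝ => fM (σ • ((x : ℝ) +ᵥ z)) := by
      simp_rw [hf]
      exact continuous_finsetSum _ fun j _ => continuous_finsetSum _ fun k _ => hcont j k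
    have h125 : ∫ x in (0 : ℝ)..125, fM (σ • ((x : ℝ) +ᵥ z)) = 0 := by
      simp_rw [hf]
      rw [intervalIntegral.integral_finsetSum (fun j _ =>
        (continuous_finsetSum _ fun k _ => hcont j k).intervalIntegrable _ _)]
      apply Finset.sum_eq_zero
      intro j _
      rw [intervalIntegral.integral_finsetSum (fun k _ => (hcont j k).intervalIntegrable _ _)]
      apply Finset.sum_eq_zero
      intro k _
      rw [intervalIntegral.integral_const_mul, intervalIntegral.integral_const_mul]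
      obtain ⟨hp, ht, hpt'⟩ := hpt j
      have hp1 : (0 : ℝ) < p j := by exact_mod_cast hp
      have ht1 : (0 : ℝ) < t j := by exact_mod_cast ht
      have hpt1 : (p j : ℝ) * t j = 25 := by exact_mod_cast hpt'
      have h5 := g_mean hs k (show 0 < (p j * z.im / t j) / 5 by positivity)
        (-(p j / (5 * t j))) (-(((p j * z.re + r j) / t j) / 5)) (-(p j * p j))
        (by have := mul_pos hp hp; omega)
        (by
          push_cast
          field_simp
          linarith)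
      have h6 : (fun x : ℝ => g k (-(((p j * (x + z.re) + r j) / t j) / 5))
          ((p j * z.im / t j) / 5)) = fun x : ℝ => g k (-(p j / (5 * t j)) * x +
            -(((p j * z.re + r j) / t j) / 5)) ((p j * z.im / t j) / 5) := by
        funext x
        congr 1
        field_simp
        ring
      rw [h6, h5, mul_zero, mul_zero]
    have hper : Function.Periodic (fun x : ℝ => fM (σ • ((x : ℝ) +ᵥ z))) 25 := by
      intro x
      exact fM_periodic h4 σ z x
    have h5 := hper.intervalIntegral_add_zsmul_eq 5 0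
      (fun t₁ t₂ => hcontf.intervalIntegrable t₁ t₂)
    have e1 : (0 : ℝ) + (5 : ℤ) • (25 : ℝ) = 125 := by
      rw [zsmul_eq_mul]; norm_num
    rw [e1, zero_add, h125] at h5
    rcases smul_eq_zero.1 h5.symm with h6 | h6
    · norm_num at h6
    · exact h6

end Pool.Agent.TH432.J696
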